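import Mathlib
import Pool.Agent.Y793.Stm

set_option autoImplicit false

/-!
# Parity lemma (St_evn) for the project Y793
-/

namespace Pool.Agent.Y590.IG

open Polynomial Finset

section
variable {N : Type} [Field N] [IsAlgClosed N]

lemma roots_fix (σ : N ≃+* N) {P : N[X]} (hP : P.map (σ : N →+* N) = P) :
    P.roots.map σ = P.roots := by
  have h := (IsAlgClosed.splits P).roots_map (σ : N →+* N)
  rw [hP] at h
  exact h.symm

lemma prod_roots_fix (σ : N ≃+* N) {P : N[X]} (hP : P.map (σ : N →+* N) = P) (f : N → N)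
    (hf : ∀ t ∈ P.roots, σ (f t) = f (σ t)) :
    σ (P.roots.map f).prod = (P.roots.map f).prod := by
  have h1 : σ (P.roots.map f).prod = (P.roots.map (fun t => σ (f t))).prod := by
    have := Multiset.prod_hom (P.roots.map f) (σ : N →* N)
    rw [Multiset.map_map] at this
    exact this.symm
  rw [h1]
  have h2 : P.roots.map (fun t => σ (f t)) = (P.roots.map σ).map f := by
    rw [Multiset.map_map]
    exact Multiset.map_congr rfl hf
  rw [h2, roots_fix σ hP]

lemma eval_eq_roots (P : N[X]) (x : N) :
    P.eval x = P.leadingCoeff * (P.roots.map (fun a => x - a)).prod := by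
  conv_lhs => rw [(IsAlgClosed.splits P).eq_prod_roots]
  rw [eval_mul, eval_C, eval_multiset_prod, Multiset.map_map]
  congr 2
  apply Multiset.map_congr rfl
  intro a _
  simp

lemma card_roots_eq (P : N[X]) : Multiset.card P.roots = P.natDegree :=
  splits_iff_card_roots.1 (IsAlgClosed.splits P)

omit [IsAlgClosed N] in
lemma prod_neg_roots (s : Multiset N) (f : N → N) :
    (s.map (fun a => - f a)).prod = (-1) ^ Multiset.card s * (s.map f).prod := by
  induction s using Multiset.induction_on with
  | empty => simp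
  | cons a s ih =>
    rw [Multiset.map_cons, Multiset.prod_cons, ih, Multiset.map_cons, Multiset.prod_cons,
      Multiset.card_cons, pow_succ]
    ring

end

lemma prod_offdiag {N : Type} [Field N] {m : ℕ} (hm : Even m) (r : Fin (2 * m) → N) :
    ∏ i, ∏ j ∈ {i}ᶜ, (r i - r j) = (Matrix.vandermonde r).det ^ 2 := by
  rw [← Finset.prod_prod_Ioi_mul_eq_prod_prod_off_diag (fun j i => r i - r j),
    Matrix.det_vandermonde, ← Finset.prod_pow]
  have h : ∀ i : Fin (2 * m), ∏ j ∈ Ioi i, (r i - r j) * (r j - r i) =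
      (-1) ^ (2 * m - 1 - (i : ℕ)) * (∏ j ∈ Ioi i, (r j - r i)) ^ 2 := by
    intro i
    rw [← Finset.prod_pow, ← Fin.card_Ioi i, ← Finset.prod_const, ← Finset.prod_mul_distrib]
    apply Finset.prod_congr rfl
    intro j _
    ring
  rw [Finset.prod_congr rfl (fun i _ => h i), Finset.prod_mul_distrib, Finset.prod_pow_eq_pow_sum]
  have hs : Even (∑ i : Fin (2 * m), (2 * m - 1 - (i : ℕ))) := by
    rw [Fin.sum_univ_eq_sum_range (fun i => 2 * m - 1 - i) (2 * m),
      Finset.sum_range_reflect (fun i => i) (2 * m)]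
    obtain ⟨k, hk⟩ := hm
    have h2 := Finset.sum_range_id_mul_two (2 * m)
    have h3 : ∑ i ∈ range (2 * m), i = m * (2 * m - 1) := by
      have : (∑ i ∈ range (2 * m), i) * 2 = (m * (2 * m - 1)) * 2 := by
        rw [h2]; ring
      omega
    rw [h3]
    exact Even.mul_right ⟨k, hk⟩ _
  rw [hs.neg_one_pow, one_mul]

theorem t_evn : Pool.Agent.Y793.St_evn := by
  intro N _ _ _ σ A B D c m r h π hm hc hAd hAl hB hD hσA hσB hσD hΦ hr hB0 hDA hder hσr hσh
  classical
  set Φ : N[X] := A ^ 2 - expand N 2 D * B ^ 2 with hΦdef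
  set δ : N := (Matrix.vandermonde r).det with hδ
  have hδ0 : δ ≠ 0 := Matrix.det_vandermonde_ne_zero_iff.2 hr
  -- the action of `σ` on `δ`
  have hσδ : σ δ = ((Equiv.Perm.sign π : ℤˣ) : ℤ) * δ := by
    have e1 : σ δ = ((σ : N →+* N).mapMatrix (Matrix.vandermonde r)).det := by
      rw [← RingHom.map_det]; rfl
    have e2 : (σ : N →+* N).mapMatrix (Matrix.vandermonde r) =
        (Matrix.vandermonde r).submatrix π id := by
      ext i j
      simp [Matrix.vandermonde_apply, hσr]
    rw [e1, e2, Matrix.det_permute]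
  have hΦeval : ∀ x, Φ.eval x = (A.eval x) ^ 2 - D.eval (x ^ 2) * (B.eval x) ^ 2 := by
    intro x
    rw [hΦdef]
    simp [expand_eval]
  have hΦeval' : ∀ x, Φ.eval x = c ^ 2 * ∏ i, (x - r i) := by
    intro x
    rw [hΦ, eval_mul, eval_C, eval_prod]
    simp
  -- the derivative at the roots
  have hder1 : ∀ i, Φ.derivative.eval (r i) = c ^ 2 * ∏ j ∈ {i}ᶜ, (r i - r j) := by
    intro i
    have hn : Φ = C (c ^ 2) * Lagrange.nodal univ r := by
      rw [hΦ]; rfl
    rw [hn, derivative_C_mul, eval_mul, eval_C,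
      Lagrange.eval_nodal_derivative_eval_node_eq (mem_univ i), Lagrange.eval_nodal]
    congr 2
    ext j; simp
  have hprodder : ∏ i, Φ.derivative.eval (r i) = (c ^ (2 * m)) ^ 2 * δ ^ 2 := by
    rw [Finset.prod_congr rfl (fun i _ => hder1 i), Finset.prod_mul_distrib, prod_offdiag hm r,
      Finset.prod_const, Finset.card_univ, Fintype.card_fin]
    ring
  have hprodder2 : ∏ i, Φ.derivative.eval (r i) =
      (∏ i, r i) * (∏ i, A.eval (r i)) * (∏ i, h i) ^ 2 := by
    rw [Finset.prod_congr rfl (fun i _ => hder i), Finset.prod_mul_distrib,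
      Finset.prod_mul_distrib, Finset.prod_pow]
  -- product of the roots
  have hpr : c ^ 2 * ∏ i, r i = (A.eval 0) ^ 2 := by
    have h1 := hΦeval 0
    have h2 := hΦeval' 0
    rw [hB0] at h1
    have h3 : ∏ i, (0 - r i) = ∏ i, r i := by
      have : ∏ i, (0 - r i) = ∏ i, ((-1) * r i) := by
        apply Finset.prod_congr rfl; intro i _; ring
      rw [this, Finset.prod_mul_distrib, Finset.prod_const, Finset.card_univ, Fintype.card_fin,
        (even_two_mul m).neg_one_pow, one_mul]
    rw [h3] at h2
    rw [← h2, h1]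
    ring
  -- product of the values of `A`
  have hcardA : Multiset.card A.roots = m := by rw [card_roots_eq, hAd]
  set PB : N := (A.roots.map (fun a => B.eval a)).prod with hPB
  set PD : N := (A.roots.map (fun a => D.eval (a ^ 2))).prod with hPD
  have hpA : ∏ i, A.eval (r i) = PD * PB ^ 2 := by
    have h1 : ∏ i, A.eval (r i) = c ^ (2 * m) * (A.roots.map (fun a => ∏ i, (r i - a))).prod := by
      have : ∀ i, A.eval (r i) = c * (A.roots.map (fun a => r i - a)).prod := by
        intro i; rw [eval_eq_roots, hAl]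
      rw [Finset.prod_congr rfl (fun i _ => this i), Finset.prod_mul_distrib, Finset.prod_const,
        Finset.card_univ, Fintype.card_fin, Multiset.prod_map_prod]
    have h2 : c ^ (2 * m) * (A.roots.map (fun a => ∏ i, (r i - a))).prod =
        (A.roots.map (fun a => c ^ 2 * ∏ i, (r i - a))).prod := by
      rw [Multiset.prod_map_mul, Multiset.map_const', Multiset.prod_replicate, hcardA, ← pow_mul]
    have h3 : (A.roots.map (fun a => c ^ 2 * ∏ i, (r i - a))).prod =
        (A.roots.map (fun a => - (D.eval (a ^ 2) * (B.eval a) ^ 2))).prod := by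
      congr 1
      apply Multiset.map_congr rfl
      intro a ha
      have ha0 : A.eval a = 0 := (mem_roots'.1 ha).2
      have h4 : ∏ i, (r i - a) = ∏ i, (a - r i) := by
        have : ∏ i, (r i - a) = ∏ i, ((-1) * (a - r i)) := by
          apply Finset.prod_congr rfl; intro i _; ring
        rw [this, Finset.prod_mul_distrib, Finset.prod_const, Finset.card_univ, Fintype.card_fin,
          (even_two_mul m).neg_one_pow, one_mul]
      rw [h4, ← hΦeval' a, hΦeval a, ha0]
      ring
    rw [h1, h2, h3, prod_neg_roots, hcardA, hm.neg_one_pow, one_mul, Multiset.prod_map_mul,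
      Multiset.prod_map_pow]
  -- square roots
  choose τ hτ using fun t : N => IsAlgClosed.exists_pow_nat_eq t (n := 2) (by norm_num)
  set G : N → N := fun t => A.eval (τ t) / c with hG
  set PG : N := (D.roots.map G).prod with hPG
  obtain ⟨k, hk⟩ := hm
  have hpD : PD = (D.leadingCoeff ^ k * PG) ^ 2 := by
    have h1 : PD = (A.roots.map (fun a => D.leadingCoeff *
        (D.roots.map (fun t => a ^ 2 - t)).prod)).prod := by
      rw [hPD]
      congr 1
      apply Multiset.map_congr rfl
      intro a _
      rw [eval_eq_roots]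
    have h2 : (D.roots.map (fun t => (A.roots.map (fun a => a ^ 2 - t)).prod)) =
        D.roots.map (fun t => (G t) ^ 2) := by
      apply Multiset.map_congr rfl
      intro t ht
      have ht0 : D.eval t = 0 := (mem_roots'.1 ht).2
      have h3 : (A.roots.map (fun a => a ^ 2 - t)).prod =
          (A.roots.map (fun a => - (τ t - a))).prod * (A.roots.map (fun a => - (-τ t - a))).prod := by
        rw [← Multiset.prod_map_mul]
        congr 1
        apply Multiset.map_congr rfl
        intro a _
        linear_combination hτ t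
      rw [h3, prod_neg_roots, prod_neg_roots, hcardA]
      have hev : Even m := ⟨k, hk⟩
      rw [hev.neg_one_pow, one_mul, one_mul]
      have e1 : (A.roots.map (fun a => τ t - a)).prod = G t := by
        rw [hG]
        simp only
        rw [eval_eq_roots A (τ t), hAl, mul_div_cancel_left₀ _ hc]
      have e2 : (A.roots.map (fun a => -τ t - a)).prod = G t := by
        rw [hG]
        simp only
        rw [hDA (τ t) (by rw [hτ t]; exact ht0), eval_eq_roots A (-τ t), hAl,
          mul_div_cancel_left₀ _ hc]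
      rw [e1, e2, sq]
    rw [h1, Multiset.prod_map_mul, Multiset.map_const', Multiset.prod_replicate, hcardA,
      Multiset.prod_map_prod_map, h2, Multiset.prod_map_pow, hk]
    ring
  -- the square root of the discriminant
  set E : N := (A.eval 0 / c) * (D.leadingCoeff ^ k * PG) * PB * (∏ i, h i) / c ^ (2 * m) with hE
  have hδE : δ ^ 2 = E ^ 2 := by
    have h1 : (c ^ (2 * m)) ^ 2 * δ ^ 2 = (A.eval 0 / c) ^ 2 * ((D.leadingCoeff ^ k * PG) ^ 2 * PB ^ 2)
        * (∏ i, h i) ^ 2 := by
      rw [← hprodder, hprodder2, hpA, hpD]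
      have : ∏ i, r i = (A.eval 0 / c) ^ 2 := by
        rw [div_pow, ← hpr, mul_div_cancel_left₀ _ (pow_ne_zero 2 hc)]
      rw [this]
    have hc2 : c ^ (2 * m) ≠ 0 := pow_ne_zero _ hc
    rw [hE, div_pow, eq_div_iff (pow_ne_zero 2 hc2), mul_comm, h1]
    ring
  have hσc : σ c = c := by
    have h1 : (A.map (σ : N →+* N)).leadingCoeff = σ A.leadingCoeff :=
      leadingCoeff_map (σ : N →+* N)
    rw [hσA, hAl] at h1
    exact h1.symm
  have hσl : σ D.leadingCoeff = D.leadingCoeff := by
    have h1 : (D.map (σ : N →+* N)).leadingCoeff = σ D.leadingCoeff :=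
      leadingCoeff_map (σ : N →+* N)
    rw [hσD] at h1
    exact h1.symm
  have hev : ∀ (P : N[X]), P.map (σ : N →+* N) = P → ∀ x, σ (P.eval x) = P.eval (σ x) := by
    intro P hP x
    have := eval_map_apply (p := P) (σ : N →+* N) x
    rw [hP] at this
    exact this.symm
  have hσA0 : σ (A.eval 0) = A.eval 0 := by rw [hev A hσA, map_zero]
  have hσPB : σ PB = PB := prod_roots_fix σ hσA _ (fun t _ => hev B hσB t)
  have hσPG : σ PG = PG := by
    apply prod_roots_fix σ hσD
    intro t ht
    have ht0 : D.eval t = 0 := (mem_roots'.1 ht).2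
    have ht1 : D.eval (σ t) = 0 := by rw [← hev D hσD, ht0, map_zero]
    rw [hG]
    simp only
    rw [map_div₀, hσc, hev A hσA]
    congr 1
    have h1 : (σ (τ t)) ^ 2 = (τ (σ t)) ^ 2 := by
      rw [← map_pow, hτ t, hτ (σ t)]
    rcases sq_eq_sq_iff_eq_or_eq_neg.1 h1 with h2 | h2
    · rw [h2]
    · rw [h2, ← hDA (τ (σ t)) (by rw [hτ]; exact ht1)]
  have hσh' : σ (∏ i, h i) = ∏ i, h i := by
    rw [map_prod, Finset.prod_congr rfl (fun i _ => hσh i)]
    exact Equiv.prod_comp π h
  have hσE : σ E = E := by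
    rw [hE]
    simp only [map_div₀, map_mul, map_pow, hσc, hσl, hσA0, hσPB, hσPG, hσh']
  have hσδ' : σ δ = δ := by
    rcases sq_eq_sq_iff_eq_or_eq_neg.1 hδE with h1 | h1
    · rw [h1, hσE]
    · rw [h1, map_neg, hσE]
  rw [hσδ'] at hσδ
  rcases Int.units_eq_one_or (Equiv.Perm.sign π) with h1 | h1
  · exact h1
  · exfalso
    rw [h1] at hσδ
    have h2 : (2 : N) * δ = 0 := by
      have : δ = -δ := by simpa using hσδ
      linear_combination this
    rcases mul_eq_zero.1 h2 with h3 | h3
    · exact two_ne_zero h3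
    · exact hδ0 h3

end Pool.Agent.Y590.IG
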